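import Pool.Agent.H807R2.Dav1

/-!
# The circle method for a linear equation in three variables
-/

set_option autoImplicit false

namespace Pool.Agent.E8helper97.TP

open Finset
open Pool.Agent.H807R2.Dav (ee ee_add ee_int ee_zero norm_ee ee_pow)

/-- orthogonality -/
lemma orth (M : ℕ) (m : ℤ) (hm : |m| < M) :
    ∑ j ∈ range M, ee ((j : ℝ) * ((m : ℝ) / M)) = if m = 0 then (M : ℂ) else 0 := by
  split_ifs with h
  · simp [h, ee_zero]
  · have hM : (0 : ℤ) < M := lt_of_le_of_lt (abs_nonneg m) hm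
    have hMr : (M : ℝ) ≠ 0 := by
      have : (0 : ℝ) < M := by exact_mod_cast hM
      exact this.ne'
    simp only [ee_pow]
    have h1 : ee ((m : ℝ) / M) ≠ 1 := by
      intro h1
      unfold ee at h1
      rw [Complex.exp_eq_one_iff] at h1
      obtain ⟨k, hk⟩ := h1
      have h2 : (2 * (Real.pi : ℂ) * Complex.I) * ((((m : ℝ) / M : ℝ) : ℂ) - k) = 0 := by
        linear_combination hk
      have h3 : (((m : ℝ) / M : ℝ) : ℂ) - k = 0 :=
        (mul_eq_zero.1 h2).resolve_left Complex.two_pi_I_ne_zero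
      have h4 : (((m : ℝ) / M : ℝ) : ℂ) = ((k : ℝ) : ℂ) := by
        rw [sub_eq_zero] at h3
        rw [h3]
        simp
      have h5 : (m : ℝ) / M = k := by exact_mod_cast h4
      rw [div_eq_iff hMr] at h5
      have h6 : m = k * M := by exact_mod_cast h5
      have h7 : k = 0 := by
        by_contra hk0
        have h8 : 1 ≤ |k| := Int.one_le_abs hk0
        have h9 : |m| = |k| * M := by rw [h6, abs_mul, abs_of_pos hM]
        nlinarith
      rw [h7, zero_mul] at h6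
      exact h h6
    rw [geom_sum_eq h1]
    have h2 : ee ((m : ℝ) / M) ^ M = 1 := by
      rw [← ee_pow, mul_div_cancel₀ _ hMr]
      exact ee_int m
    rw [h2, sub_self, zero_div]

/-- the exponential sum at `c j / M` -/
noncomputable def T (N M : ℕ) (c : ℤ) (b : ℕ → ℂ) (j : ℕ) : ℂ :=
  ∑ y ∈ Icc 1 N, b y * ee ((y : ℝ) * ((c : ℝ) * j / M))

lemma conj_ee (x : ℝ) : (starRingEnd ℂ) (ee x) = ee (-x) := by
  unfold ee
  rw [← Complex.exp_conj]
  congr 1
  rw [map_mul, map_mul, map_mul, Complex.conj_I, Complex.conj_ofReal, Complex.conj_ofReal, map_ofNat]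
  push_cast
  ring

/-- Parseval -/
lemma pars (N M : ℕ) (c : ℤ) (hc : c ≠ 0) (hM : N * |c| < M) (b : ℕ → ℂ) :
    ∑ j ∈ range M, ‖T N M c b j‖ ^ 2 = M * ∑ y ∈ Icc 1 N, ‖b y‖ ^ 2 := by
  have h1 : ∀ j, (((‖T N M c b j‖ ^ 2 : ℝ)) : ℂ) = ∑ y ∈ Icc 1 N, ∑ y' ∈ Icc 1 N,
      (b y * (starRingEnd ℂ) (b y')) * ee ((j : ℝ) * (((c * ((y : ℤ) - y') : ℤ) : ℝ) / M)) := by
    intro j
    rw [← Complex.normSq_eq_norm_sq, ← Complex.mul_conj]
    unfold T
    rw [map_sum, Finset.sum_mul_sum]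
    refine Finset.sum_congr rfl fun y _ => Finset.sum_congr rfl fun y' _ => ?_
    rw [map_mul, conj_ee]
    have e1 : (j : ℝ) * (((c * ((y : ℤ) - y') : ℤ) : ℝ) / M) = (y : ℝ) * ((c : ℝ) * j / M) +
        -((y' : ℝ) * ((c : ℝ) * j / M)) := by
      push_cast
      ring
    rw [e1, ee_add]
    ring
  have h2 : ((∑ j ∈ range M, ‖T N M c b j‖ ^ 2 : ℝ) : ℂ) = ((M * ∑ y ∈ Icc 1 N, ‖b y‖ ^ 2 : ℝ) : ℂ) := by
    rw [Complex.ofReal_sum]
    simp only [h1]
    rw [Finset.sum_comm]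
    have h3 : ∀ y ∈ Icc 1 N, ∑ j ∈ range M, ∑ y' ∈ Icc 1 N, (b y * (starRingEnd ℂ) (b y')) *
        ee ((j : ℝ) * (((c * ((y : ℤ) - y') : ℤ) : ℝ) / M)) = (M : ℂ) * ((‖b y‖ ^ 2 : ℝ) : ℂ) := by
      intro y hy
      rw [Finset.sum_comm]
      have h4 : ∀ y' ∈ Icc 1 N, ∑ j ∈ range M, (b y * (starRingEnd ℂ) (b y')) *
          ee ((j : ℝ) * (((c * ((y : ℤ) - y') : ℤ) : ℝ) / M)) =
          if y' = y then (M : ℂ) * ((‖b y‖ ^ 2 : ℝ) : ℂ) else 0 := by
        intro y' hy'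
        rw [Finset.mem_Icc] at hy hy'
        rw [← Finset.mul_sum, orth]
        · split_ifs with h5 h6 h6
          · rw [h6, Complex.mul_conj, Complex.normSq_eq_norm_sq]
            ring
          · exfalso
            rcases mul_eq_zero.1 h5 with h7 | h7
            · exact hc h7
            · omega
          · exfalso
            apply h5
            rw [h6, sub_self, mul_zero]
          · rw [mul_zero]
        · rw [abs_mul]
          refine lt_of_le_of_lt ?_ hM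
          rw [mul_comm]
          refine mul_le_mul_of_nonneg_right ?_ (abs_nonneg c)
          rw [abs_le]
          omega
      rw [Finset.sum_congr rfl h4, Finset.sum_ite_eq' (Icc 1 N) y, if_pos hy]
    rw [Finset.sum_congr rfl h3, ← Finset.mul_sum]
    push_cast
    rfl
  exact_mod_cast h2

theorem cir (N : ℕ) (c₁ c₂ c₃ n : ℤ) (_ : c₁ ≠ 0) (h₂ : c₂ ≠ 0) (h₃ : c₃ ≠ 0)
    (a b c : ℕ → ℂ) (A : ℝ) (hA : ∀ θ : ℝ, ‖∑ x ∈ Icc 1 N, a x * ee ((x : ℝ) * θ)‖ ≤ A)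
    (S : ℂ)
    (hS : S = ∑ x ∈ Icc 1 N, ∑ y ∈ Icc 1 N, ∑ w ∈ Icc 1 N,
      (a x * b y * c w) * (if c₁ * x + c₂ * y + c₃ * w - n = 0 then 1 else 0)) :
    ‖S‖ ≤ A * (√(∑ y ∈ Icc 1 N, ‖b y‖ ^ 2) * √(∑ w ∈ Icc 1 N, ‖c w‖ ^ 2)) := by
  have hA0 : 0 ≤ A := (norm_nonneg _).trans (hA 0)
  obtain ⟨M, hM⟩ : ∃ M : ℕ, (M : ℤ) = N * |c₁| + N * |c₂| + N * |c₃| + |n| + 1 := by
    refine ⟨(N * |c₁| + N * |c₂| + N * |c₃| + |n| + 1).toNat, Int.toNat_of_nonneg ?_⟩
    positivity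
  have p1 : 0 ≤ (N : ℤ) * |c₁| := by positivity
  have p2 : 0 ≤ (N : ℤ) * |c₂| := by positivity
  have p3 : 0 ≤ (N : ℤ) * |c₃| := by positivity
  have p4 : 0 ≤ |n| := abs_nonneg n
  have hM0 : (0 : ℝ) < M := by
    have : (0 : ℤ) < M := by omega
    exact_mod_cast this
  have hMS : (M : ℂ) * S = ∑ j ∈ range M, ee (-((n : ℝ) * j / M)) *
      (T N M c₁ a j * (T N M c₂ b j * T N M c₃ c j)) := by
    have h1 : ∀ j : ℕ, ee (-((n : ℝ) * j / M)) * (T N M c₁ a j * (T N M c₂ b j * T N M c₃ c j)) =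
        ∑ x ∈ Icc 1 N, ∑ y ∈ Icc 1 N, ∑ w ∈ Icc 1 N, (a x * b y * c w) *
          ee ((j : ℝ) * (((c₁ * x + c₂ * y + c₃ * w - n : ℤ) : ℝ) / M)) := by
      intro j
      unfold T
      rw [Finset.sum_mul_sum, Finset.sum_mul_sum, Finset.mul_sum]
      refine Finset.sum_congr rfl fun x _ => ?_
      rw [Finset.mul_sum]
      refine Finset.sum_congr rfl fun y _ => ?_
      rw [Finset.mul_sum, Finset.mul_sum]
      refine Finset.sum_congr rfl fun w _ => ?_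
      have e1 : (j : ℝ) * (((c₁ * x + c₂ * y + c₃ * w - n : ℤ) : ℝ) / M) =
          -((n : ℝ) * j / M) + ((x : ℝ) * ((c₁ : ℝ) * j / M) + ((y : ℝ) * ((c₂ : ℝ) * j / M) +
            (w : ℝ) * ((c₃ : ℝ) * j / M))) := by
        push_cast
        ring
      rw [e1, ee_add, ee_add, ee_add]
      ring
    simp only [h1]
    conv_rhs => rw [Finset.sum_comm]
    rw [hS, Finset.mul_sum]
    refine Finset.sum_congr rfl fun x hx => ?_
    conv_rhs => rw [Finset.sum_comm]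
    rw [Finset.mul_sum]
    refine Finset.sum_congr rfl fun y hy => ?_
    conv_rhs => rw [Finset.sum_comm]
    rw [Finset.mul_sum]
    refine Finset.sum_congr rfl fun w hw => ?_
    rw [Finset.mem_Icc] at hx hy hw
    rw [← Finset.mul_sum, orth]
    · split_ifs with h5
      · ring
      · ring
    · have q1 : |c₁ * (x : ℤ)| ≤ N * |c₁| := by
        rw [abs_mul, mul_comm, Nat.abs_cast]
        exact mul_le_mul_of_nonneg_right (by exact_mod_cast hx.2) (abs_nonneg _)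
      have q2 : |c₂ * (y : ℤ)| ≤ N * |c₂| := by
        rw [abs_mul, mul_comm, Nat.abs_cast]
        exact mul_le_mul_of_nonneg_right (by exact_mod_cast hy.2) (abs_nonneg _)
      have q3 : |c₃ * (w : ℤ)| ≤ N * |c₃| := by
        rw [abs_mul, mul_comm, Nat.abs_cast]
        exact mul_le_mul_of_nonneg_right (by exact_mod_cast hw.2) (abs_nonneg _)
      rw [hM]
      have q4 : |c₁ * (x : ℤ) + c₂ * y + c₃ * w - n| ≤ |c₁ * (x : ℤ)| + |c₂ * (y : ℤ)| +
          |c₃ * (w : ℤ)| + |n| :=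
        (abs_sub _ _).trans (add_le_add_left (abs_add_three _ _ _) _)
      omega
  have hn : (M : ℝ) * ‖S‖ ≤ A * ∑ j ∈ range M, ‖T N M c₂ b j‖ * ‖T N M c₃ c j‖ := by
    have h1 : (M : ℝ) * ‖S‖ = ‖(M : ℂ) * S‖ := by
      rw [norm_mul, Complex.norm_natCast]
    rw [h1, hMS, Finset.mul_sum]
    refine (norm_sum_le _ _).trans (Finset.sum_le_sum fun j _ => ?_)
    rw [norm_mul, norm_ee, one_mul, norm_mul, norm_mul]
    exact mul_le_mul_of_nonneg_right (hA _) (by positivity)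
  have hcs := Real.sum_mul_le_sqrt_mul_sqrt (range M) (fun j => ‖T N M c₂ b j‖)
    (fun j => ‖T N M c₃ c j‖)
  rw [pars N M c₂ h₂ (by omega) b, pars N M c₃ h₃ (by omega) c, Real.sqrt_mul hM0.le,
    Real.sqrt_mul hM0.le] at hcs
  have hs : √(M : ℝ) * √(M : ℝ) = M := Real.mul_self_sqrt hM0.le
  have h6 : (M : ℝ) * ‖S‖ ≤ M * (A * (√(∑ y ∈ Icc 1 N, ‖b y‖ ^ 2) * √(∑ w ∈ Icc 1 N, ‖c w‖ ^ 2))) := by
    refine hn.trans ((mul_le_mul_of_nonneg_left hcs hA0).trans (le_of_eq ?_))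
    linear_combination (A * (√(∑ y ∈ Icc 1 N, ‖b y‖ ^ 2) * √(∑ w ∈ Icc 1 N, ‖c w‖ ^ 2))) * hs
  exact le_of_mul_le_mul_left h6 hM0

end Pool.Agent.E8helper97.TP
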