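import Pool.Agent.E8helper16.TP.StmA
import Pool.Agent.E8helper97.TP.Cir0

/-!
# TP-1
-/

set_option autoImplicit false

namespace Pool.Agent.E8helper97.TP

open Finset

theorem t_CIR : Pool.Agent.E8helper16.TP.S_CIR := by
  intro N c₁ c₂ c₃ n h₁ h₂ h₃ a b c A hA
  refine cir N c₁ c₂ c₃ n h₁ h₂ h₃ a b c A hA _ ?_
  refine Finset.sum_congr rfl fun x _ => Finset.sum_congr rfl fun y _ =>
    Finset.sum_congr rfl fun w _ => ?_
  by_cases h : c₁ * (x : ℤ) + c₂ * y + c₃ * w = n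
  · rw [if_pos h, if_pos (sub_eq_zero.2 h), mul_one]
  · rw [if_neg h, if_neg (sub_ne_zero.2 h), mul_zero]

end Pool.Agent.E8helper97.TP
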